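import Mathlib
import Pool.Agent.J4H92.CM.Stm

/-! Project CM: the size of the transform near `-1/2`. -/

set_option autoImplicit false

namespace Pool.Agent.J4H69.CM

open MeasureTheory Set

theorem t_BND : Pool.Agent.J4H92.CM.S_BND := by
  intro f C c M hC hc hM c' hcc
  have hc' : 0 < c' := lt_of_le_of_lt hc hcc
  have hd : 0 < c' ^ 2 - c ^ 2 := by nlinarith
  let T : ℝ := max ((M : ℝ) + 1) (max 2 (c' ^ 2 / (c' ^ 2 - c ^ 2)))
  have hT1 : (M : ℝ) + 1 ≤ T := le_max_left _ _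
  have hT2 : (2 : ℝ) ≤ T := (le_max_left _ _).trans (le_max_right _ _)
  have hT3 : c' ^ 2 / (c' ^ 2 - c ^ 2) ≤ T := (le_max_right _ _).trans (le_max_right _ _)
  refine ⟨|C| * (T - 1), fun x hx hx0 => ?_⟩
  have hint : IntegrableOn (fun t : ℝ => t ^ (-(x + 3 / 2))) (Ioi 1) :=
    integrableOn_Ioi_rpow_of_lt (by linarith) one_pos
  have hval : ∫ t in Ioi (1 : ℝ), t ^ (-(x + 3 / 2)) = 1 / (x + 1 / 2) := by
    rw [integral_Ioi_rpow_of_lt (by linarith) one_pos, Real.one_rpow]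
    have h1 : -(x + 3 / 2) + 1 = -(x + 1 / 2) := by ring
    rw [h1, neg_div_neg_eq]
  have hind : IntegrableOn (Set.indicator (Ioc 1 T) fun _ : ℝ => |C|) (Ioi 1) := by
    apply Integrable.integrableOn
    rw [integrable_indicator_iff measurableSet_Ioc]
    exact integrableOn_const (by simp)
  have hindv : ∫ t in Ioi (1 : ℝ), (Set.indicator (Ioc 1 T) fun _ : ℝ => |C|) t = |C| * (T - 1) := by
    rw [setIntegral_indicator measurableSet_Ioc]
    have h2 : Ioi (1 : ℝ) ∩ Ioc 1 T = Ioc 1 T := by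
      ext y; simp
    rw [h2, setIntegral_const, smul_eq_mul, mul_comm]
    congr 1
    simp [Measure.real, Real.volume_Ioc]
    linarith
  have hg : Integrable (fun t : ℝ => c' * t ^ (-(x + 3 / 2)) +
      (Set.indicator (Ioc 1 T) fun _ : ℝ => |C|) t) (volume.restrict (Ioi 1)) :=
    (hint.const_mul c').add hind
  have hle := norm_integral_le_of_norm_le hg (f := fun t : ℝ =>
    Pool.Agent.J4H92.CM.S f ⌊t⌋₊ * (t : ℂ) ^ (-((x : ℂ) + 1))) (by
    refine (ae_restrict_iff' measurableSet_Ioi).2 (Filter.Eventually.of_forall fun t ht => ?_)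
    have ht1 : (1 : ℝ) < t := ht
    have ht0 : (0 : ℝ) < t := by linarith
    have hfl : 1 ≤ ⌊t⌋₊ := Nat.le_floor (by simpa using ht1.le)
    have hflR : (1 : ℝ) ≤ (⌊t⌋₊ : ℝ) := by exact_mod_cast hfl
    rw [norm_mul, Complex.norm_cpow_eq_rpow_re_of_pos ht0]
    have hre : (-((x : ℂ) + 1)).re = -(x + 1) := by simp
    rw [hre]
    have hp : 0 ≤ t ^ (-(x + 1)) := Real.rpow_nonneg ht0.le _
    have hp1 : t ^ (-(x + 1)) ≤ 1 := Real.rpow_le_one_of_one_le_of_nonpos ht1.le (by linarith)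
    by_cases hT : t ≤ T
    · have hi : (Set.indicator (Ioc 1 T) fun _ : ℝ => |C|) t = |C| :=
        Set.indicator_of_mem (show t ∈ Ioc 1 T from ⟨ht1, hT⟩) _
      rw [hi]
      have h1 : ‖Pool.Agent.J4H92.CM.S f ⌊t⌋₊‖ ≤ |C| := by
        refine (hC _ hfl).trans ?_
        have h2 : 1 ≤ Real.sqrt (⌊t⌋₊ : ℝ) := Real.one_le_sqrt.2 hflR
        rw [div_le_iff₀ (by linarith)]
        have h3 := le_abs_self C
        have h4 := abs_nonneg C
        nlinarith
      have h5 : 0 ≤ c' * t ^ (-(x + 3 / 2)) := mul_nonneg hc'.le (Real.rpow_nonneg ht0.le _)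
      have h6 : ‖Pool.Agent.J4H92.CM.S f ⌊t⌋₊‖ * t ^ (-(x + 1)) ≤ |C| * 1 :=
        mul_le_mul h1 hp1 hp (abs_nonneg C)
      linarith
    · have hi : (Set.indicator (Ioc 1 T) fun _ : ℝ => |C|) t = 0 :=
        Set.indicator_of_notMem (fun h => hT h.2) _
      rw [hi, add_zero]
      have hTt : T < t := not_le.1 hT
      have hMn : M ≤ ⌊t⌋₊ := Nat.le_floor (by linarith)
      have hS := hM _ hMn hfl
      have hn1 : t - 1 ≤ (⌊t⌋₊ : ℝ) := (Nat.sub_one_lt_floor t).le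
      have hsq : c ^ 2 * t ≤ c' ^ 2 * (⌊t⌋₊ : ℝ) := by
        have h7 : c' ^ 2 ≤ T * (c' ^ 2 - c ^ 2) := by
          rwa [div_le_iff₀ hd] at hT3
        have h8 : c' ^ 2 ≤ t * (c' ^ 2 - c ^ 2) := by nlinarith
        have h9 : c' ^ 2 * (t - 1) ≤ c' ^ 2 * (⌊t⌋₊ : ℝ) :=
          mul_le_mul_of_nonneg_left hn1 (by positivity)
        nlinarith
      have hrt : c * Real.sqrt t ≤ c' * Real.sqrt (⌊t⌋₊ : ℝ) := by
        have h10 := Real.sqrt_le_sqrt hsq
        rwa [Real.sqrt_mul (by positivity), Real.sqrt_mul (by positivity), Real.sqrt_sq hc,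
          Real.sqrt_sq hc'.le] at h10
      have hst : 0 < Real.sqrt t := Real.sqrt_pos.2 ht0
      have hsn : 0 < Real.sqrt (⌊t⌋₊ : ℝ) := Real.sqrt_pos.2 (by linarith)
      have h11 : ‖Pool.Agent.J4H92.CM.S f ⌊t⌋₊‖ ≤ c' * t ^ (-(1 / 2 : ℝ)) := by
        refine hS.trans ?_
        rw [Real.rpow_neg ht0.le, ← Real.sqrt_eq_rpow, ← div_eq_mul_inv, div_le_div_iff₀ hsn hst]
        exact hrt
      have h12 : t ^ (-(x + 3 / 2)) = t ^ (-(1 / 2 : ℝ)) * t ^ (-(x + 1)) := by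
        rw [← Real.rpow_add ht0]
        congr 1
        ring
      rw [h12, ← mul_assoc]
      exact mul_le_mul_of_nonneg_right h11 hp)
  have hI : ∫ t in Ioi (1 : ℝ), (c' * t ^ (-(x + 3 / 2)) +
      (Set.indicator (Ioc 1 T) fun _ : ℝ => |C|) t) = c' / (x + 1 / 2) + |C| * (T - 1) := by
    rw [integral_add (hint.const_mul c') hind, integral_const_mul, hval, hindv]
    ring
  rw [hI] at hle
  exact hle

end Pool.Agent.J4H69.CM
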